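import Pool.Agent.Helper13.PS.St

/-!
# Project PS (MP_77ff3d_nt), module PJ: exceptional numbers are rare (helper80)
-/

set_option autoImplicit false

noncomputable section

namespace Pool.Agent.Helper80.PS

open Finset Pool.Agent.Helper76.ND Pool.Agent.Helper13.PS

open Classical in
theorem hPJ (hBn : StBn) : StPJ := by
  intro σ hσ0 hσ1
  have hσ2 : 0 < σ ^ 2 := by positivity
  refine ⟨2 + 4 / σ ^ 2, σ ^ 2, by positivity, hσ2, by nlinarith, fun t => ?_⟩
  rcases Nat.eq_zero_or_pos t with rfl | ht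
  · have h1 : ((Icc 1 (2 ^ 0)).filter (fun N => E σ 0 N)).card ≤ 1 := by
      refine (card_filter_le _ _).trans ?_
      simp
    have h2 : (((Icc 1 (2 ^ 0)).filter (fun N => E σ 0 N)).card : ℝ) ≤ 1 := by exact_mod_cast h1
    refine h2.trans ?_
    rw [Nat.cast_zero, mul_zero, Real.rpow_zero, mul_one]
    have : 0 < 4 / σ ^ 2 := by positivity
    linarith
  · have ht0 : (0 : ℝ) < t := by exact_mod_cast ht
    have hsplit : (Icc 1 (2 ^ t)).filter (fun N => E σ t N) ⊆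
        Icc 1 ⌊(2 : ℝ) ^ ((1 - σ) * t)⌋₊ ∪ (Icc 1 (2 ^ t)).filter (fun N => ¬ Gd (σ * t) (wd t N)) := by
      intro N hN
      rw [mem_filter] at hN
      rw [mem_union]
      rcases hN.2 with h | h
      · left
        rw [mem_Icc] at hN ⊢
        exact ⟨hN.1.1, Nat.le_floor h.le⟩
      · right
        rw [mem_filter]
        exact ⟨hN.1, h⟩
    have hc1 : (((Icc 1 (2 ^ t)).filter (fun N => E σ t N)).card : ℝ) ≤
        ((Icc 1 ⌊(2 : ℝ) ^ ((1 - σ) * t)⌋₊).card : ℝ) +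
        (((Icc 1 (2 ^ t)).filter (fun N => ¬ Gd (σ * t) (wd t N))).card : ℝ) := by
      have := (card_le_card hsplit).trans (card_union_le _ _)
      exact_mod_cast this
    have hA : ((Icc 1 ⌊(2 : ℝ) ^ ((1 - σ) * t)⌋₊).card : ℝ) ≤ 2 ^ ((1 - σ ^ 2) * t) := by
      rw [Nat.card_Icc, Nat.add_sub_cancel]
      refine (Nat.floor_le (by positivity)).trans ?_
      refine Real.rpow_le_rpow_of_exponent_le (by norm_num) ?_
      refine mul_le_mul_of_nonneg_right ?_ ht0.le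
      nlinarith
    have hB0 := hBn (2 ^ t) t (σ * t) ht le_rfl (by positivity)
    have hB : (((Icc 1 (2 ^ t)).filter (fun N => ¬ Gd (σ * t) (wd t N))).card : ℝ) ≤
        4 / σ ^ 2 * 2 ^ ((1 - σ ^ 2) * t) := by
      refine (le_trans (le_of_eq (by congr)) hB0).trans ?_
      have e1 : 2 * (σ * (t : ℝ)) ^ 2 / t = σ ^ 2 * t + σ ^ 2 * t := by field_simp; ring
      rw [e1, neg_add, Real.exp_add]
      have e2 : (t : ℝ) * Real.exp (-(σ ^ 2 * t)) ≤ 1 / σ ^ 2 := by
        rw [le_div_iff₀ hσ2, Real.exp_neg, ← div_eq_mul_inv, div_mul_eq_mul_div,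
          div_le_one (Real.exp_pos _)]
        have := Real.add_one_le_exp (σ ^ 2 * t)
        linarith
      have e3 : Real.exp (-(σ ^ 2 * t)) ≤ 2 ^ (-(σ ^ 2 * t)) := by
        rw [Real.rpow_def_of_pos (by norm_num)]
        apply Real.exp_le_exp.2
        have h1 : Real.log 2 ≤ 1 := by linarith [Real.log_two_lt_d9]
        have h2 : 0 ≤ σ ^ 2 * t := by positivity
        nlinarith
      have e4 : (2 : ℝ) ^ ((1 - σ ^ 2) * t) = 2 ^ t * 2 ^ (-(σ ^ 2 * t)) := by
        rw [← Real.rpow_natCast 2 t, ← Real.rpow_add (by norm_num)]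
        congr 1; ring
      rw [e4]
      push_cast
      calc 4 * 2 ^ t * (t : ℝ) * (Real.exp (-(σ ^ 2 * t)) * Real.exp (-(σ ^ 2 * t)))
          = 4 * 2 ^ t * (((t : ℝ) * Real.exp (-(σ ^ 2 * t))) * Real.exp (-(σ ^ 2 * t))) := by ring
        _ ≤ 4 * 2 ^ t * ((1 / σ ^ 2) * 2 ^ (-(σ ^ 2 * t))) := by
            refine mul_le_mul_of_nonneg_left ?_ (by positivity)
            exact mul_le_mul e2 e3 (Real.exp_pos _).le (by positivity)
        _ = _ := by ring
    have hpos : 0 < (2 : ℝ) ^ ((1 - σ ^ 2) * t) := by positivity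
    calc (((Icc 1 (2 ^ t)).filter (fun N => E σ t N)).card : ℝ)
        ≤ 2 ^ ((1 - σ ^ 2) * t) + 4 / σ ^ 2 * 2 ^ ((1 - σ ^ 2) * t) := hc1.trans (add_le_add hA hB)
      _ ≤ (2 + 4 / σ ^ 2) * 2 ^ ((1 - σ ^ 2) * t) := by
          rw [add_mul]; linarith

end Pool.Agent.Helper80.PS
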