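import Pool.Agent.Helper21.PS.Defs

/-!
# MP_8013d7_co: numerical facts
-/

set_option autoImplicit false

namespace PS

open SimpleGraph Finset Pool.Agent.Helper37.PathSys
open Pool.Agent.Helper37.PathSys.PathSystem
open Filter Topology

open scoped Classical

noncomputable section

variable {n h : ℕ} {lam δ : ℝ}

namespace NumAux

theorem hpos (hp : Par n h lam δ) : (8 : ℝ) ≤ h := by
  have h1 := hp.big
  have h2 := hp.eq
  have h3 : (0 : ℝ) < h := by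
    rcases Nat.eq_zero_or_pos h with h0 | h0
    · exfalso
      rw [h0] at h2
      simp at h2
      linarith
    · exact_mod_cast h0
  have h4 : Real.exp lam = (h : ℝ) / 4 := by
    rw [h2, Real.exp_log (by positivity)]
  have h5 := Real.add_one_le_exp lam
  rw [h4] at h5
  linarith

theorem exp_lam (hp : Par n h lam δ) : Real.exp lam = (h : ℝ) / 4 := by
  have h1 := hpos hp
  rw [hp.eq, Real.exp_log (by linarith)]

theorem n_ge (hp : Par n h lam δ) : (h : ℝ) * (lam - 2) ≤ n := by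
  have h1 := hpos hp
  have h2 := (abs_le.1 hp.close).1
  have h3 : lam - 2 ≤ (n : ℝ) / h := by linarith
  rw [le_div_iff₀ (by linarith)] at h3
  linarith

theorem n_le (hp : Par n h lam δ) : (n : ℝ) ≤ h * (lam + 2) := by
  have h1 := hpos hp
  have h2 := (abs_le.1 hp.close).2
  have h3 : (n : ℝ) / h ≤ lam + 2 := by linarith
  rw [div_le_iff₀ (by linarith)] at h3
  linarith

theorem n_big (hp : Par n h lam δ) : 8 * (lam - 2) ≤ n := by
  have h1 := hpos hp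
  have h2 := n_ge hp
  have h3 := hp.big
  nlinarith

theorem NN_eq (n : ℕ) : NN n = (n : ℝ) * (n - 1) / 2 := by
  unfold NN
  rw [Nat.cast_choose_two]

/-- negative powers of `n` are small -/
theorem rpow_small (hp : Par n h lam δ) {a : ℝ} (ha : 1 / 10000 ≤ a) :
    (n : ℝ) ^ (-a) * lam ^ 10 ≤ 1 := by
  have h1 := n_big hp
  have h2 := hp.big
  have h3 : (1 : ℝ) ≤ n := by linarith
  have h4 : (n : ℝ) ^ (-a) ≤ (n : ℝ) ^ (-(1 / 10000 : ℝ)) :=
    Real.rpow_le_rpow_of_exponent_le h3 (by linarith)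
  have h5 : 0 ≤ lam ^ 10 := by positivity
  exact (mul_le_mul_of_nonneg_right h4 h5).trans hp.nbig

theorem lam10 {lam : ℝ} (h : 10 ^ 6 ≤ lam) : 100 * lam ^ 3 ≤ lam ^ 10 := by
  have h1 : (1 : ℝ) ≤ lam := by linarith
  have h2 : (1 : ℝ) ≤ lam ^ 6 := one_le_pow₀ h1
  have h3 : 0 ≤ lam ^ 3 := by positivity
  have h4 : (100 : ℝ) ≤ lam ^ 7 := by
    have : lam ^ 7 = lam ^ 6 * lam := by ring
    nlinarith
  have : lam ^ 10 = lam ^ 3 * lam ^ 7 := by ring
  rw [this]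
  nlinarith

/-- negative powers of `n` are small -/
theorem rpow_small' (hp : Par n h lam δ) {a : ℝ} (ha : 1 / 10000 ≤ a) :
    (n : ℝ) ^ (-a) * (100 * lam ^ 3) ≤ 1 := by
  have h1 := n_big hp
  have h2 := hp.big
  have h3 : 0 ≤ (n : ℝ) ^ (-a) := by positivity
  exact (mul_le_mul_of_nonneg_left (lam10 h2) h3).trans (rpow_small hp ha)

theorem NN_ge (hp : Par n h lam δ) : (n : ℝ) ^ 2 ≤ 2.1 * NN n := by
  have h1 := n_big hp
  have h2 := hp.big
  rw [NN_eq]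
  nlinarith

theorem div_ss_le (hp : Par n h lam δ) : ((n / ss n : ℕ) : ℝ) ≤ (n : ℝ) ^ (0.02 : ℝ) := by
  have h1 := n_big hp
  have h2 := hp.big
  have hn : (0 : ℝ) < n := by linarith
  have h3 : (0 : ℝ) < (n : ℝ) ^ (0.98 : ℝ) := by positivity
  have h4 : (n : ℝ) ^ (0.98 : ℝ) ≤ ss n := Nat.le_ceil _
  calc ((n / ss n : ℕ) : ℝ) ≤ (n : ℝ) / ss n := Nat.cast_div_le
    _ ≤ (n : ℝ) / (n : ℝ) ^ (0.98 : ℝ) := by gcongr
    _ = (n : ℝ) ^ (0.02 : ℝ) := by
        rw [div_eq_iff h3.ne', ← Real.rpow_add hn]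
        norm_num

end NumAux

open NumAux

theorem num_n (hp : Par n h lam δ) : 4 * lam ≤ n ∧ (n : ℝ) ≤ NN n / lam ∧
    (n : ℝ) ^ 2 ≤ 2.1 * NN n ∧ 2 * NN n ≤ (n : ℝ) ^ 2 ∧ lam ≤ Real.log n ∧
    Real.log n ≤ 2 * lam ∧ Real.log lam ≤ NN n / lam ∧ 0 < NN n ∧ (0 : ℝ) < h := by
  have h1 := n_big hp
  have h2 := hp.big
  have h3 := hpos hp
  have h4 := n_ge hp
  have h5 := n_le hp
  have hlam : 0 < lam := by linarith
  have hn : (0 : ℝ) < n := by linarith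
  have hb : (n : ℝ) ≤ NN n / lam := by
    rw [le_div_iff₀ hlam, NN_eq]
    nlinarith
  have hNN : 0 < NN n := by
    rw [NN_eq]
    have : 0 < (n : ℝ) - 1 := by linarith
    positivity
  refine ⟨by linarith, hb, NN_ge hp, ?_, ?_, ?_, ?_, hNN, by linarith⟩
  · rw [NN_eq]
    nlinarith
  · rw [Real.le_log_iff_exp_le hn, exp_lam hp]
    nlinarith
  · rw [Real.log_le_iff_le_exp hn]
    have h6 : Real.exp (2 * lam) = (h : ℝ) / 4 * Real.exp lam := by
      rw [← exp_lam hp, ← Real.exp_add]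
      ring_nf
    have h7 := Real.quadratic_le_exp_of_nonneg hlam.le
    rw [h6]
    have h8 : 4 * (lam + 2) ≤ Real.exp lam := by nlinarith
    nlinarith
  · refine le_trans ?_ hb
    have h6 := Real.log_le_sub_one_of_pos hlam
    linarith

theorem num_q (hp : Par n h lam δ) : 0 < qq n ∧ qq n ≤ n ∧ 1 ≤ tau n ∧
    0 < (n : ℝ) ^ (-(1 / 3200) : ℝ) ∧ ((n : ℝ) ^ (-(1 / 3200) : ℝ)) ^ 32 = qq n / n ∧
    2 * tau n * (n : ℝ) ^ (-(1 / 3200) : ℝ) * n = xi n ∧ 1 ≤ ss n ∧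
    lam / 6400 ≤ Real.log (tau n) ∧ 0 < xi n := by
  have h1 := n_big hp
  have h2 := hp.big
  obtain ⟨-, -, -, -, h3, -⟩ := num_n hp
  have hn : (0 : ℝ) < n := by linarith
  have hn1 : (1 : ℝ) ≤ n := by linarith
  refine ⟨?_, ?_, ?_, ?_, ?_, ?_, ?_, ?_, ?_⟩
  · unfold qq; positivity
  · unfold qq
    calc (n : ℝ) ^ (0.99 : ℝ) ≤ (n : ℝ) ^ (1 : ℝ) :=
          Real.rpow_le_rpow_of_exponent_le hn1 (by norm_num)
      _ = n := Real.rpow_one _
  · unfold tau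
    exact Real.one_le_rpow hn1 (by norm_num)
  · positivity
  · unfold qq
    rw [eq_div_iff hn.ne', ← Real.rpow_natCast, ← Real.rpow_mul hn.le]
    nth_rw 2 [← Real.rpow_one (n : ℝ)]
    rw [← Real.rpow_add hn]
    norm_num
  · unfold tau xi
    have e : (n : ℝ) ^ (1 - 1 / 6400 : ℝ) = (n : ℝ) ^ (1 / 6400 : ℝ) *
        (n : ℝ) ^ (-(1 / 3200) : ℝ) * n := by
      nth_rw 4 [← Real.rpow_one (n : ℝ)]
      rw [← Real.rpow_add hn, ← Real.rpow_add hn]
      norm_num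
    rw [e]
    ring
  · unfold ss
    exact Nat.one_le_ceil_iff.2 (by positivity)
  · unfold tau
    rw [Real.log_rpow hn]
    linarith
  · unfold xi; positivity

theorem num_xi (hp : Par n h lam δ) : 4 * xi n / h ≤ 1 / lam := by
  have h1 := n_big hp
  have h2 := hp.big
  have h3 := hpos hp
  have h5 := n_le hp
  have hlam : 0 < lam := by linarith
  have hn : (0 : ℝ) < n := by linarith
  have hh0 : (0 : ℝ) < h := by linarith
  have h6 := rpow_small' hp (a := 1 / 6400) (by norm_num)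
  have h7 : xi n = 2 * (n * (n : ℝ) ^ (-(1 / 6400) : ℝ)) := by
    unfold xi
    congr 1
    nth_rw 2 [← Real.rpow_one (n : ℝ)]
    rw [← Real.rpow_add hn]
    norm_num
  have h8 : 0 < (n : ℝ) ^ (-(1 / 6400) : ℝ) := by positivity
  rw [div_le_div_iff₀ hh0 hlam, h7, one_mul]
  calc 4 * (2 * (n * (n : ℝ) ^ (-(1 / 6400) : ℝ))) * lam
      ≤ 4 * (2 * ((h * (lam + 2)) * (n : ℝ) ^ (-(1 / 6400) : ℝ))) * lam := by gcongr
    _ = h * ((n : ℝ) ^ (-(1 / 6400) : ℝ) * (8 * (lam + 2) * lam)) := by ring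
    _ ≤ h * ((n : ℝ) ^ (-(1 / 6400) : ℝ) * (100 * lam ^ 3)) := by
        have : 8 * (lam + 2) * lam ≤ 100 * lam ^ 3 := by
          have h9 : lam ^ 3 = lam ^ 2 * lam := by ring
          have h10 : 8 * (lam + 2) ≤ 100 * lam ^ 2 := by nlinarith
          rw [h9]
          nlinarith
        gcongr
    _ ≤ h * 1 := by gcongr
    _ = h := mul_one _

theorem num_s (hp : Par n h lam δ) : 2 * (n : ℝ) ^ 2 * ss n / qq n ≤ NN n / lam := by
  have h1 := n_big hp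
  have h2 := hp.big
  have hlam : 0 < lam := by linarith
  have hn : (0 : ℝ) < n := by linarith
  have hn1 : (1 : ℝ) ≤ n := by linarith
  have hq : 0 < qq n := (num_q hp).1
  have h6 := rpow_small' hp (a := 0.01) (by norm_num)
  have h7 : (ss n : ℝ) ≤ 2 * (n : ℝ) ^ (0.98 : ℝ) := by
    have h8 : (ss n : ℝ) < (n : ℝ) ^ (0.98 : ℝ) + 1 := Nat.ceil_lt_add_one (by positivity)
    have h9 : 1 ≤ (n : ℝ) ^ (0.98 : ℝ) := Real.one_le_rpow hn1 (by norm_num)
    linarith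
  have h10 : (n : ℝ) ^ (0.98 : ℝ) = qq n * (n : ℝ) ^ (-0.01 : ℝ) := by
    unfold qq
    rw [← Real.rpow_add hn]
    norm_num
  have h11 : 0 < (n : ℝ) ^ (-0.01 : ℝ) := by positivity
  rw [div_le_iff₀ hq]
  have h12 : 2 * (n : ℝ) ^ 2 * ss n ≤ 4 * (n : ℝ) ^ 2 * (n : ℝ) ^ (-0.01 : ℝ) * qq n := by
    calc 2 * (n : ℝ) ^ 2 * ss n ≤ 2 * (n : ℝ) ^ 2 * (2 * (n : ℝ) ^ (0.98 : ℝ)) := by gcongr
      _ = _ := by rw [h10]; ring
  refine h12.trans (mul_le_mul_of_nonneg_right ?_ hq.le)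
  rw [le_div_iff₀ hlam]
  have h13 := NN_ge hp
  have h14 : (n : ℝ) ^ (-0.01 : ℝ) * (8.4 * lam) ≤ 1 := by
    refine le_trans (mul_le_mul_of_nonneg_left ?_ h11.le) h6
    have h9 : lam ^ 3 = lam ^ 2 * lam := by ring
    have h10 : (1 : ℝ) ≤ lam ^ 2 := by nlinarith
    rw [h9]
    nlinarith
  nlinarith [sq_nonneg (n : ℝ)]

theorem num_rev (hp : Par n h lam δ) :
    ((n / ss n * n : ℕ) : ℝ) * Real.log n ≤ NN n / lam := by
  have h1 := n_big hp
  have h2 := hp.big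
  have hlam : 0 < lam := by linarith
  have hn : (0 : ℝ) < n := by linarith
  have hn1 : (1 : ℝ) ≤ n := by linarith
  have h6 := rpow_small' hp (a := 0.98) (by norm_num)
  have hlog : Real.log n ≤ 2 * lam := (num_n hp).2.2.2.2.2.1
  have hlog0 : 0 ≤ Real.log n := Real.log_nonneg hn1
  rw [Nat.cast_mul]
  have h7 : (n : ℝ) ^ (0.02 : ℝ) * n = (n : ℝ) ^ 2 * (n : ℝ) ^ (-0.98 : ℝ) := by
    rw [← Real.rpow_natCast (n : ℝ) 2, ← Real.rpow_add hn]
    nth_rw 2 [← Real.rpow_one (n : ℝ)]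
    rw [← Real.rpow_add hn]
    norm_num
  have h11 : 0 < (n : ℝ) ^ (-0.98 : ℝ) := by positivity
  have h13 := NN_ge hp
  have h14 : (n : ℝ) ^ (-0.98 : ℝ) * (4.2 * lam * lam) ≤ 1 := by
    refine le_trans (mul_le_mul_of_nonneg_left ?_ h11.le) h6
    have h9 : lam ^ 3 = lam * lam * lam := by ring
    have h10 : (1 : ℝ) ≤ lam := by linarith
    have h12 : 0 < lam * lam := by positivity
    rw [h9]
    nlinarith
  calc ((n / ss n : ℕ) : ℝ) * n * Real.log n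
      ≤ (n : ℝ) ^ (0.02 : ℝ) * n * (2 * lam) := by
        have := div_ss_le hp
        gcongr
    _ = (n : ℝ) ^ 2 * (n : ℝ) ^ (-0.98 : ℝ) * (2 * lam) := by rw [h7]
    _ ≤ NN n / lam := by
        rw [le_div_iff₀ hlam]
        nlinarith [sq_nonneg (n : ℝ)]

theorem num_arc (hp : Par n h lam δ) :
    (n : ℝ) ^ 2 * (((n / ss n : ℕ) : ℝ) * Real.exp (-(0.05 * lam))) ≤ NN n / lam := by
  have h1 := n_big hp
  have h2 := hp.big
  have hlam : 0 < lam := by linarith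
  have hn : (0 : ℝ) < n := by linarith
  have hn1 : (1 : ℝ) ≤ n := by linarith
  have h3 := hpos hp
  have h5 := n_le hp
  have hh0 : (0 : ℝ) < h := by linarith
  have h6 := rpow_small' hp (a := 0.03) (by norm_num)
  have h11 : 0 < (n : ℝ) ^ (-0.03 : ℝ) := by positivity
  have h13 := NN_ge hp
  -- the exponential
  have h7 : Real.exp (-(0.05 * lam)) ≤ 4 * (lam + 2) * (n : ℝ) ^ (-0.05 : ℝ) := by
    have e1 : -(0.05 * lam) = (-lam) * 0.05 := by ring
    rw [e1, Real.exp_mul, Real.exp_neg, exp_lam hp]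
    have e2 : ((h : ℝ) / 4)⁻¹ ≤ 4 * (lam + 2) / n := by
      rw [inv_div, div_le_div_iff₀ hh0 hn]
      nlinarith
    have e3 : (1 : ℝ) ≤ 4 * (lam + 2) := by linarith
    calc (((h : ℝ) / 4)⁻¹) ^ (0.05 : ℝ) ≤ (4 * (lam + 2) / n) ^ (0.05 : ℝ) :=
          Real.rpow_le_rpow (by positivity) e2 (by norm_num)
      _ = (4 * (lam + 2)) ^ (0.05 : ℝ) * (n : ℝ) ^ (-0.05 : ℝ) := by
          rw [Real.div_rpow (by linarith) hn.le, Real.rpow_neg hn.le, div_eq_mul_inv]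
      _ ≤ (4 * (lam + 2)) ^ (1 : ℝ) * (n : ℝ) ^ (-0.05 : ℝ) := by
          have := Real.rpow_le_rpow_of_exponent_le e3 (show (0.05 : ℝ) ≤ 1 by norm_num)
          gcongr
      _ = _ := by rw [Real.rpow_one]
  have h8 : (n : ℝ) ^ (0.02 : ℝ) * (n : ℝ) ^ (-0.05 : ℝ) = (n : ℝ) ^ (-0.03 : ℝ) := by
    rw [← Real.rpow_add hn]
    norm_num
  have h14 : (n : ℝ) ^ (-0.03 : ℝ) * (8.4 * (lam + 2) * lam) ≤ 1 := by
    refine le_trans (mul_le_mul_of_nonneg_left ?_ h11.le) h6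
    have h9 : lam ^ 3 = lam ^ 2 * lam := by ring
    have h10 : 8.4 * (lam + 2) ≤ 100 * lam ^ 2 := by nlinarith
    rw [h9]
    nlinarith
  calc (n : ℝ) ^ 2 * (((n / ss n : ℕ) : ℝ) * Real.exp (-(0.05 * lam)))
      ≤ (n : ℝ) ^ 2 * ((n : ℝ) ^ (0.02 : ℝ) * (4 * (lam + 2) * (n : ℝ) ^ (-0.05 : ℝ))) := by
        have := div_ss_le hp
        gcongr
    _ = (n : ℝ) ^ 2 * (4 * (lam + 2) * ((n : ℝ) ^ (0.02 : ℝ) * (n : ℝ) ^ (-0.05 : ℝ))) := by
        ring
    _ = (n : ℝ) ^ 2 * (4 * (lam + 2) * (n : ℝ) ^ (-0.03 : ℝ)) := by rw [h8]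
    _ ≤ NN n / lam := by
        rw [le_div_iff₀ hlam]
        nlinarith [sq_nonneg (n : ℝ)]

theorem num_exp (hp : Par n h lam δ) : NN n * Real.exp (-(lam / 200)) ≤ NN n / lam := by
  have h2 := hp.big
  have hlam : 0 < lam := by linarith
  have hNN : 0 < NN n := (num_n hp).2.2.2.2.2.2.2.1
  rw [div_eq_mul_inv]
  refine mul_le_mul_of_nonneg_left ?_ hNN.le
  rw [Real.exp_neg]
  have h7 := Real.quadratic_le_exp_of_nonneg (show 0 ≤ lam / 200 by positivity)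
  refine inv_anti₀ hlam ?_
  have h8 : 10 ^ 6 * lam ≤ lam * lam := mul_le_mul_of_nonneg_right h2 hlam.le
  have h9 : (lam / 200) ^ 2 / 2 = lam * lam / 80000 := by ring
  rw [h9] at h7
  refine le_trans ?_ h7
  linarith

end

end PS
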