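import Pool.Agent.Helper13.PS.St2

/-!
# Project PS, second part: module UC (preimage of a small set)
-/

set_option autoImplicit false

namespace Pool.Agent.Helper80.PS

open Finset Pool.Agent.Helper76.ND Pool.Agent.Helper13.PS

theorem wd_injOn (hRl : StRl) (t N N' : ℕ) (hN : N ∈ Icc 1 (2 ^ t)) (hN' : N' ∈ Icc 1 (2 ^ t))
    (h : wd t N = wd t N') : N = N' := by
  have h1 := hRl.1 t N
  have h2 := hRl.1 t N'
  rw [← h] at h2
  rw [mem_Icc] at hN hN'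
  have h3 : 3 ^ hd (wd t N) * N ≡ 3 ^ hd (wd t N) * N' [MOD 2 ^ t] := by
    rw [h1, h2]
    have e1 : 2 ^ t * S^[t] N + cc (wd t N) ≡ 0 + cc (wd t N) [MOD 2 ^ t] :=
      Nat.ModEq.add_right _ ((Nat.modEq_zero_iff_dvd).2 (dvd_mul_right _ _))
    have e2 : 2 ^ t * S^[t] N' + cc (wd t N) ≡ 0 + cc (wd t N) [MOD 2 ^ t] :=
      Nat.ModEq.add_right _ ((Nat.modEq_zero_iff_dvd).2 (dvd_mul_right _ _))
    exact e1.trans e2.symm
  have h4 : N ≡ N' [MOD 2 ^ t] := by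
    refine Nat.ModEq.cancel_left_of_coprime ?_ h3
    exact Nat.Coprime.pow _ _ (by norm_num)
  rcases le_total N N' with hl | hl
  · have h5 := (Nat.modEq_iff_dvd' hl).1 h4
    rcases Nat.eq_zero_or_pos (N' - N) with h6 | h6
    · omega
    · have := Nat.le_of_dvd h6 h5
      omega
  · have h5 := (Nat.modEq_iff_dvd' hl).1 h4.symm
    rcases Nat.eq_zero_or_pos (N - N') with h6 | h6
    · omega
    · have := Nat.le_of_dvd h6 h5
      omega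

open Classical in
theorem uc_card (hRl : StRl) (t j : ℕ) (U : Finset ℕ) :
    ((Icc 1 (2 ^ t)).filter (fun N => hd (wd t N) = j ∧ S^[t] N ∈ U)).card ≤
      ((W t).filter (fun l => hd l = j ∧ ∃ M ∈ U, 3 ^ j ∣ 2 ^ t * M + cc l)).card := by
  apply Finset.card_le_card_of_injOn (fun N => wd t N)
  · intro N hN
    simp only [coe_filter, Set.mem_ofPred_eq] at hN ⊢
    refine ⟨wd_mem t N, hN.2.1, S^[t] N, hN.2.2, ?_⟩
    rw [← hRl.1 t N, hN.2.1]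
    exact dvd_mul_right _ _
  · intro N hN N' hN' h
    simp only [coe_filter, Set.mem_ofPred_eq] at hN hN'
    exact wd_injOn hRl t N N' hN.1 hN'.1 h

theorem hUC (hRl : StRl) (hUA : StUA) (hUB : StUB) : StUC := by
  classical
  intro t j U hU ht
  rcases U.eq_empty_or_nonempty with rfl | hne
  · simp
  set u : ℝ := (U.card : ℝ) with hu
  have hu1 : (1 : ℝ) ≤ u := by
    rw [hu]; exact_mod_cast hne.card_pos
  have hu3 : u ≤ 3 ^ j := by
    have := Finset.card_le_card hU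
    rw [Nat.card_Icc, Nat.add_sub_cancel] at this
    rw [hu]
    exact_mod_cast this
  have h3 : (0 : ℝ) < 3 ^ j := by positivity
  set R : ℝ := Real.sqrt (u / 3 ^ j) with hR
  have hR2 : R ^ 2 = u / 3 ^ j := Real.sq_sqrt (by positivity)
  have hR0 : 0 < R := Real.sqrt_pos.2 (by positivity)
  have hR1 : R ≤ 1 := by
    rw [hR, Real.sqrt_le_one]
    exact (div_le_one h3).2 hu3
  set V : ℝ := R * 3 ^ j with hV
  have hV2 : R * V = u := by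
    rw [hV, ← mul_assoc, ← sq, hR2, div_mul_cancel₀ _ h3.ne']
  have hV1 : 1 ≤ V := by
    have : u ≤ V := by
      rw [← hV2]
      calc R * V ≤ 1 * V := by gcongr
        _ = V := one_mul V
    linarith
  have hV3 : V ≤ 3 ^ j := by
    calc V ≤ 1 * 3 ^ j := by rw [hV]; gcongr
      _ = 3 ^ j := one_mul _
  have hfl : ⌊V⌋₊ ≠ 0 := by
    have : 1 ≤ ⌊V⌋₊ := Nat.le_floor (by exact_mod_cast hV1)
    omega
  obtain ⟨s, hs⟩ : ∃ s, s = Nat.log 2 ⌊V⌋₊ := ⟨_, rfl⟩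
  have hs1 : (2 : ℝ) ^ s ≤ V := by
    have h1 : 2 ^ s ≤ ⌊V⌋₊ := by rw [hs]; exact Nat.pow_log_le_self 2 hfl
    calc (2 : ℝ) ^ s = ((2 ^ s : ℕ) : ℝ) := by push_cast; ring
      _ ≤ (⌊V⌋₊ : ℝ) := by exact_mod_cast h1
      _ ≤ V := Nat.floor_le (by linarith)
  have hs2 : V < 2 ^ (s + 1) := by
    have h1 : ⌊V⌋₊ < 2 ^ (s + 1) := by rw [hs]; exact Nat.lt_pow_succ_log_self (by norm_num) _
    have h2 : ⌊V⌋₊ + 1 ≤ 2 ^ (s + 1) := h1
    calc V < (⌊V⌋₊ : ℝ) + 1 := Nat.lt_floor_add_one V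
      _ ≤ ((2 ^ (s + 1) : ℕ) : ℝ) := by exact_mod_cast h2
      _ = 2 ^ (s + 1) := by push_cast; ring
  have hst : s ≤ t := by
    have h1 : (2 : ℝ) ^ s ≤ 2 ^ t := by
      calc (2 : ℝ) ^ s ≤ V := hs1
        _ ≤ 3 ^ j := hV3
        _ ≤ 2 ^ t := by exact_mod_cast ht
    exact (pow_le_pow_iff_right₀ (by norm_num : (1 : ℝ) < 2)).1 h1
  obtain ⟨r, rfl⟩ := Nat.exists_eq_add_of_le hst
  have hB := hUB s r j U
  have hA := hUA.2 s j
  set a : ℕ := ((W s).filter (fun a => 3 ^ j ≤ cc a)).card with ha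
  have hC := (uc_card hRl (s + r) j U).trans hB
  have hC' : ((((Icc 1 (2 ^ (s + r))).filter
      (fun N => hd (wd (s + r) N) = j ∧ S^[s + r] N ∈ U)).card : ℕ) : ℝ) ≤ 2 ^ r * ((a : ℝ) + u) := by
    rw [hu]; exact_mod_cast hC
  have hA' : 4 * 3 ^ j * (a : ℝ) ≤ s * 4 ^ s := by exact_mod_cast hA
  refine hC'.trans ?_
  have h4 : (4 : ℝ) ^ s = 2 ^ s * 2 ^ s := by
    rw [← mul_pow]; norm_num
  have hp : (2 : ℝ) ^ (s + r) = 2 ^ s * 2 ^ r := pow_add _ _ _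
  have hs0 : (0 : ℝ) < 2 ^ s := by positivity
  have hr0 : (0 : ℝ) < 2 ^ r := by positivity
  -- first term
  have hfirst : (2 : ℝ) ^ r * a ≤ (s : ℝ) / 4 * 2 ^ (s + r) * R := by
    have e1 : 3 ^ j * (a : ℝ) ≤ 3 ^ j * ((s : ℝ) / 4 * 2 ^ s * R) := by
      have e2 : (s : ℝ) * 4 ^ s ≤ s * (2 ^ s * V) := by
        rw [h4]; gcongr
      have e3 : (s : ℝ) * (2 ^ s * V) = 4 * (3 ^ j * ((s : ℝ) / 4 * 2 ^ s * R)) := by
        rw [hV]; ring
      linarith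
    have e4 : (a : ℝ) ≤ (s : ℝ) / 4 * 2 ^ s * R := le_of_mul_le_mul_left e1 h3
    calc (2 : ℝ) ^ r * a ≤ 2 ^ r * ((s : ℝ) / 4 * 2 ^ s * R) := by gcongr
      _ = (s : ℝ) / 4 * 2 ^ (s + r) * R := by rw [hp]; ring
  have hsecond : (2 : ℝ) ^ r * u ≤ 2 * 2 ^ (s + r) * R := by
    calc (2 : ℝ) ^ r * u = 2 ^ r * (R * V) := by rw [hV2]
      _ ≤ 2 ^ r * (R * 2 ^ (s + 1)) := by gcongr
      _ = 2 * 2 ^ (s + r) * R := by rw [hp, pow_succ]; ring
  have hfin : (s : ℝ) / 4 * 2 ^ (s + r) * R ≤ ((s + r : ℕ) : ℝ) * 2 ^ (s + r) * R := by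
    have : (s : ℝ) / 4 ≤ ((s + r : ℕ) : ℝ) := by
      push_cast
      have h1 : (0 : ℝ) ≤ s := Nat.cast_nonneg s
      have h2 : (0 : ℝ) ≤ r := Nat.cast_nonneg r
      linarith
    gcongr
  have : (2 : ℝ) ^ r * ((a : ℝ) + u) = 2 ^ r * a + 2 ^ r * u := by ring
  rw [this]
  have e : (((s + r : ℕ) : ℝ) + 2) * 2 ^ (s + r) * R =
      ((s + r : ℕ) : ℝ) * 2 ^ (s + r) * R + 2 * 2 ^ (s + r) * R := by ring
  rw [e]
  linarith

end Pool.Agent.Helper80.PS
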